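import Pool.Agent.helper90.FL.Spec

set_option autoImplicit false

namespace Pool.Agent.helper90.FL

open Finset Polynomial
open scoped Classical

theorem CNV_aux {V E M : Type} [Fintype V] [DecidableEq V] [Fintype E] [AddCommMonoid M] (g : E → V) (f : E → M)
    (S : Set V) : ∑ e ∈ univ.filter (fun e => g e ∈ S), f e =
      ∑ v ∈ univ.filter (fun v => v ∈ S), ∑ e, if g e = v then f e else 0 := by
  rw [Finset.sum_comm, Finset.sum_filter]
  apply Finset.sum_congr rfl
  intro e _
  rw [Finset.sum_ite_eq]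
  by_cases h : g e ∈ S
  · rw [if_pos h, if_pos (mem_filter.2 ⟨mem_univ _, h⟩)]
  · rw [if_neg h, if_neg (fun h' => h (mem_filter.1 h').2)]

theorem CNV_one {V E M : Type} [DecidableEq V] [Fintype E] [AddCommMonoid M] (g : E → V) (f : E → M)
    (v : V) (S : Set V) (hS : ∀ u, u ∈ S ↔ u = v) :
    ∑ e ∈ univ.filter (fun e => g e ∈ S), f e = ∑ e, if g e = v then f e else 0 := by
  rw [Finset.sum_filter]
  apply Finset.sum_congr rfl
  intro e _
  by_cases h : g e = v
  · rw [if_pos h, if_pos ((hS _).2 h)]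
  · rw [if_neg h, if_neg (fun h' => h ((hS _).1 h'))]

theorem CNV : CNV_stmt := by
  intro n k q _
  unfold nz N
  apply Nat.card_congr
  apply Equiv.subtypeEquivRight
  intro f
  unfold IsF
  constructor
  · rintro ⟨h1, h2⟩
    refine ⟨fun e => ⟨fun _ => mem_univ _, fun _ => h1 e⟩, fun S _ => ?_⟩
    rw [CNV_aux (src n) f S, CNV_aux (tgt n k) f S]
    apply Finset.sum_congr rfl
    intro v _
    exact h2 v
  · rintro ⟨h1, h2⟩
    refine ⟨fun e => (h1 e).2 (mem_univ _), fun v => ?_⟩
    have h3 := h2 {v} (fun e he => absurd he (Finset.notMem_empty e))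
    rw [CNV_one (src n) f v {v} (fun u => Set.mem_singleton_iff), CNV_one (tgt n k) f v {v} (fun u => Set.mem_singleton_iff)] at h3
    exact h3

end Pool.Agent.helper90.FL
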